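import Pool.Agent.Helper58.Thin.Seq
import Pool.Agent.Helper47.Spec.Reg

/-!
# Counting
-/

open Finset Filter Topology

namespace Pool.Agent.Helper58.Thin

/-- The number of multiples of `p` in an interval. -/
lemma card_multiples_le {p : ℕ} (hp : 0 < p) {x y : ℕ} (hxy : x ≤ y) (S : Finset ℕ)
    (hS : ∀ t ∈ S, x ≤ t ∧ t < y ∧ p ∣ t) : (S.card : ℝ) ≤ ((y : ℝ) - x) / p + 1 := by
  classical
  have hp' : (0 : ℝ) < p := by exact_mod_cast hp
  have hsub : S ⊆ (Finset.Ico ⌈(x : ℝ) / p⌉₊ ⌈(y : ℝ) / p⌉₊).image (fun i => p * i) := by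
    intro t ht
    obtain ⟨h1, h2, i, hi⟩ := hS t ht
    rw [Finset.mem_image]
    refine ⟨i, ?_, hi.symm⟩
    rw [Finset.mem_Ico]
    constructor
    · rw [Nat.ceil_le, div_le_iff₀ hp']
      have : x ≤ i * p := by rw [mul_comm]; omega
      exact_mod_cast this
    · rw [Nat.lt_ceil, lt_div_iff₀ hp']
      have : i * p < y := by rw [mul_comm]; omega
      exact_mod_cast this
  have h1 := (Finset.card_le_card hsub).trans Finset.card_image_le
  rw [Nat.card_Ico] at h1
  have h2 : (⌈(y : ℝ) / p⌉₊ : ℝ) < (y : ℝ) / p + 1 := Nat.ceil_lt_add_one (by positivity)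
  have h3 : (x : ℝ) / p ≤ ⌈(x : ℝ) / p⌉₊ := Nat.le_ceil _
  have h4 : (x : ℝ) / p ≤ (y : ℝ) / p := by gcongr
  have h5 : ⌈(x : ℝ) / p⌉₊ ≤ ⌈(y : ℝ) / p⌉₊ := Nat.ceil_mono h4
  have h6 : (S.card : ℝ) ≤ ((⌈(y : ℝ) / p⌉₊ - ⌈(x : ℝ) / p⌉₊ : ℕ) : ℝ) := by exact_mod_cast h1
  rw [Nat.cast_sub h5] at h6
  rw [sub_div]
  linarith

open Classical in
/-- Elements of `D` beyond `Z K` are multiples of `2 ^ (K + 1)`. -/
lemma cardD_top {K x y : ℕ} (hx : Z K ≤ x) (hxy : x ≤ y) (hy : y ≤ Z (K + 1)) :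
    (((Finset.Ico x y).filter (· ∈ D)).card : ℝ) ≤ Dh y - Dh x + 4 := by
  have h1 := card_multiples_le (p := 2 ^ (K + 1)) (by positivity) hxy
    ((Finset.Ico x y).filter (· ∈ D)) (by
      intro t ht
      rw [Finset.mem_filter, Finset.mem_Ico] at ht
      obtain ⟨⟨ht1, ht2⟩, k, hk1, hk2⟩ := ht
      refine ⟨ht1, ht2, ?_⟩
      have hk : K + 1 ≤ k := by
        by_contra h
        have := Z_mono (show k ≤ K by omega)
        omega
      exact (pow_dvd_pow 2 hk).trans hk1)
  have h2 : (Z K : ℝ) ≤ x := by exact_mod_cast hx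
  have h3 : (x : ℝ) ≤ y := by exact_mod_cast hxy
  have h4 : (y : ℝ) ≤ Z (K + 1) := by exact_mod_cast hy
  have h5 := Z_lower K
  have h6 := Z_upper (K + 1)
  have hp : (0 : ℝ) < 2 ^ (K + 1) := by positivity
  have h7 := Dh_ge (k := K + 1) (y := y) (C := 3) (by rw [pow_succ]; linarith) (by linarith)
    (by norm_num)
  have h8 := Dh_le (x := x) (by positivity) (K + 1)
  unfold ln at h7 h8
  push_cast at h1
  rw [sub_div] at h1
  linarith

open Classical in
lemma cardD_le (K : ℕ) : ∀ x y : ℕ, x ≤ y → y ≤ Z K →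
    (((Finset.Ico x y).filter (· ∈ D)).card : ℝ) ≤ Dh y - Dh x + 8 * (K + 1) := by
  induction K with
  | zero =>
    intro x y hxy hy
    have h1 : ((Finset.Ico x y).filter (· ∈ D)).card ≤ 4 := by
      refine (Finset.card_filter_le _ _).trans ?_
      rw [Nat.card_Ico]
      have : Z 0 = 4 := by unfold Z; norm_num
      omega
    have h2 : (((Finset.Ico x y).filter (· ∈ D)).card : ℝ) ≤ 4 := by exact_mod_cast h1
    have h3 := Dh_mono (x := x) (y := y) (by positivity) (by exact_mod_cast hxy)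
    push_cast
    linarith
  | succ K ih =>
    intro x y hxy hy
    push_cast
    rcases le_total y (Z K) with h | h
    · have := ih x y hxy h
      linarith
    · rcases le_total (Z K) x with h' | h'
      · have := cardD_top h' hxy hy
        have hK : (0 : ℝ) ≤ K := by positivity
        linarith
      · have h1 := ih x (Z K) h' le_rfl
        have h2 := cardD_top le_rfl h hy
        have h3 : Finset.Ico x y = Finset.Ico x (Z K) ∪ Finset.Ico (Z K) y :=
          (Finset.Ico_union_Ico_eq_Ico h' h).symm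
        have h4 : ((Finset.Ico x y).filter (· ∈ D)).card ≤
            ((Finset.Ico x (Z K)).filter (· ∈ D)).card +
              ((Finset.Ico (Z K) y).filter (· ∈ D)).card := by
          rw [h3, Finset.filter_union]
          exact Finset.card_union_le _ _
        have h5 : (((Finset.Ico x y).filter (· ∈ D)).card : ℝ) ≤
            ((Finset.Ico x (Z K)).filter (· ∈ D)).card +
              ((Finset.Ico (Z K) y).filter (· ∈ D)).card := by exact_mod_cast h4
        linarith

/-- The index of an element beyond `x`. -/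
lemma Rh_le_index {j x : ℕ} (h : x ≤ r j) : Rh x ≤ j + 10 := by
  rcases eq_or_ne j 0 with h0 | h0
  · rw [h0, r_zero] at h
    have hx : x = 0 := by omega
    rw [hx]
    have := Dh_nonneg (x := 0) le_rfl
    unfold Rh
    simp only [Nat.cast_zero, mul_zero, Real.sqrt_zero]
    rw [h0]
    push_cast
    linarith
  · obtain ⟨k, i, hi, rfl⟩ := exists_index h0
    have hp : (1 : ℝ) ≤ 2 ^ k := one_le_pow₀ (by norm_num)
    have h4 := four_pow k
    have hi0 : (0 : ℝ) ≤ i := by positivity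
    push_cast
    rcases le_total (x : ℝ) (2 / 5 * 4 ^ k) with hx | hx
    · have := Rh_le_pow (k := k) (x := x) (by positivity) hx
      linarith
    · set m := r (i + 2 ^ k) with hm
      have hxm : (x : ℝ) ≤ m := by exact_mod_cast h
      have h1 : Rh x ≤ Rh m := Rh_mono (by positivity) hxm
      rcases le_total (2 ^ (k + 1)) m with hc | hc
      · have hnot : m - 2 ^ (k + 1) ∉ cand (r i) k (i + 2 ^ k) := by
          intro hmem
          have h2 := Nat.sInf_le hmem
          rw [← r_eq hi, ← hm] at h2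
          have : 0 < 2 ^ (k + 1) := by positivity
          omega
        have hmod : m - 2 ^ (k + 1) ≡ r i + 2 ^ k [MOD 2 ^ (k + 1)] := by
          have h2 := r_mod hi
          rw [← hm] at h2
          have h3 : m - 2 ^ (k + 1) + 2 ^ (k + 1) = m := Nat.sub_add_cancel hc
          rw [← h3] at h2
          exact (Nat.ModEq.symm (by simp [Nat.ModEq])).trans h2
        have h2 : Rh ((m - 2 ^ (k + 1) : ℕ) : ℝ) < ((i + 2 ^ k : ℕ) : ℝ) := by
          by_contra h3
          exact hnot ⟨hmod, not_lt.1 h3⟩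
        have hcast : ((m - 2 ^ (k + 1) : ℕ) : ℝ) = (m : ℝ) - 2 ^ (k + 1) := by
          rw [Nat.cast_sub hc]; push_cast; ring
        rw [hcast] at h2
        push_cast at h2
        have hm0 : (0 : ℝ) ≤ (m : ℝ) - 2 ^ (k + 1) := by
          rw [← hcast]; positivity
        have hpk : (0 : ℝ) < 2 ^ (k + 1) := by positivity
        have h5 := Rh_slope (x := (m : ℝ) - 2 ^ (k + 1)) (y := m) hm0 (by linarith)
        set u := √(10 * (m : ℝ)) with hu
        set v := √(10 * ((m : ℝ) - 2 ^ (k + 1))) with hv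
        have hu2 : u ^ 2 = 10 * (m : ℝ) := Real.sq_sqrt (by positivity)
        have hv2 : v ^ 2 = 10 * ((m : ℝ) - 2 ^ (k + 1)) := Real.sq_sqrt (by positivity)
        have hv0 : 0 ≤ v := Real.sqrt_nonneg _
        have hul : 2 * 2 ^ k ≤ u := by
          refine Real.le_sqrt_of_sq_le ?_
          nlinarith
        have hpow : (2 : ℝ) ^ (k + 1) = 2 * 2 ^ k := by rw [pow_succ]; ring
        rw [hpow] at hv2
        have h6 : u - v ≤ 10 := by
          by_contra h7
          push Not at h7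
          have h8 : (u - v) * (u + v) = 20 * 2 ^ k := by nlinarith
          have h9 : 10 * (2 * 2 ^ k) < (u - v) * (u + v) := by nlinarith
          linarith
        linarith
      · have hmle : (m : ℝ) ≤ 2 * 2 ^ k := by
          have : (m : ℝ) ≤ ((2 ^ (k + 1) : ℕ) : ℝ) := by exact_mod_cast hc
          push_cast at this
          rw [pow_succ] at this
          linarith
        have h2 : √(10 * (m : ℝ)) ≤ 2 ^ k + 5 := by
          rw [Real.sqrt_le_left (by positivity)]
          nlinarith [sq_nonneg ((2 : ℝ) ^ k - 5)]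
        have h3 := Dh_nonneg (x := (m : ℝ)) (by positivity)
        have h5 : Rh (m : ℝ) ≤ √(10 * (m : ℝ)) := by unfold Rh; linarith
        linarith

/-- The index of an element below `y`. -/
lemma index_le {j y : ℕ} (hy : 1 ≤ y) (h : r j < y) : (j : ℝ) ≤ Rh y := by
  have h1 : Rh 1 ≤ Rh y := Rh_mono (by norm_num) (by exact_mod_cast hy)
  have h2 : 0 ≤ Rh 1 := by
    have h3 := Dh_le (x := 1) (by norm_num) 0
    have h4 : (2 : ℝ) ≤ √(10 * 1) := Real.le_sqrt_of_sq_le (by norm_num)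
    unfold Rh
    unfold ln at h3
    norm_num at h3 h4 ⊢
    linarith
  rcases eq_or_ne j 0 with h0 | h0
  · rw [h0]; push_cast; linarith
  · refine (le_Rh_r h0).trans (Rh_mono (by positivity) ?_)
    exact_mod_cast h.le

open Classical in
lemma cardR_le {x y : ℕ} (hxy : x ≤ y) (hy : 1 ≤ y) :
    (((Finset.Ico x y).filter (· ∈ R)).card : ℝ) ≤ Rh y - Rh x + 11 := by
  have hm : Rh x ≤ Rh y := Rh_mono (by positivity) (by exact_mod_cast hxy)
  have hsub : (Finset.Ico x y).filter (· ∈ R) ⊆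
      (Finset.Ico ⌈Rh x - 10⌉₊ (⌊Rh y⌋₊ + 1)).image r := by
    intro t ht
    rw [Finset.mem_filter, Finset.mem_Ico] at ht
    obtain ⟨⟨h1, h2⟩, j, rfl⟩ := ht
    rw [Finset.mem_image]
    refine ⟨j, ?_, rfl⟩
    rw [Finset.mem_Ico]
    constructor
    · rw [Nat.ceil_le]
      linarith [Rh_le_index h1]
    · rw [Nat.lt_succ_iff]
      exact Nat.le_floor (index_le hy h2)
  have h1 := (Finset.card_le_card hsub).trans Finset.card_image_le
  rw [Nat.card_Ico] at h1
  rcases le_total ⌈Rh x - 10⌉₊ (⌊Rh y⌋₊ + 1) with h | h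
  · have h2 : (((Finset.Ico x y).filter (· ∈ R)).card : ℝ) ≤
        ((⌊Rh y⌋₊ + 1 - ⌈Rh x - 10⌉₊ : ℕ) : ℝ) := by exact_mod_cast h1
    rw [Nat.cast_sub h] at h2
    push_cast at h2
    have h3 : Rh x - 10 ≤ ⌈Rh x - 10⌉₊ := Nat.le_ceil _
    have h4 : (⌊Rh y⌋₊ : ℝ) ≤ Rh y := by
      apply Nat.floor_le
      have := index_le (j := 0) hy (by rw [r_zero]; omega)
      simpa using this
    linarith
  · rw [Nat.sub_eq_zero_of_le h] at h1
    have h2 : (((Finset.Ico x y).filter (· ∈ R)).card : ℝ) ≤ 0 := by exact_mod_cast h1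
    linarith

lemma lt_Z (y : ℕ) : y ≤ Z (Nat.log 4 y + 1) := by
  have h1 : y < 4 ^ (Nat.log 4 y + 1) := Nat.lt_pow_succ_log_self (by norm_num) y
  have h2 : 4 ^ (Nat.log 4 y + 1) ≤ 6 * 4 ^ (Nat.log 4 y + 1) / 5 := by
    rw [Nat.le_div_iff_mul_le (by norm_num)]
    have := Nat.zero_le (4 ^ (Nat.log 4 y + 1))
    omega
  have h3 := Nat.zero_le (2 ^ (Nat.log 4 y + 1 + 1))
  unfold Z
  generalize 2 ^ (Nat.log 4 y + 1 + 1) = w at *
  generalize 6 * 4 ^ (Nat.log 4 y + 1) / 5 = q at *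
  generalize 4 ^ (Nat.log 4 y + 1) = p at *
  omega

lemma rt_two (x : ℝ) : Helper47.Spec.rt 2 x = √x := by
  unfold Helper47.Spec.rt
  rw [Real.sqrt_eq_rpow]
  norm_num

/-- The local density of `D ∪ R`. -/
theorem locDens : Helper47.Spec.LocDens 2 (√10) (D ∪ R) := by
  classical
  intro ε hε
  have hlim := tendsto_pow_const_div_const_pow_of_one_lt 1 (r := (2 : ℝ)) (by norm_num)
  obtain ⟨N, hN⟩ := eventually_atTop.1
    ((hlim.eventually (gt_mem_nhds (show (0 : ℝ) < ε / 35 by positivity))).and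
      (eventually_ge_atTop 1))
  refine ⟨4 ^ N, fun x y hx hxy => ?_⟩
  have hx1 : 1 ≤ 4 ^ N := Nat.one_le_pow _ _ (by norm_num)
  have hy1 : 1 ≤ y := by omega
  have h1 := cardD_le (Nat.log 4 y + 1) x y hxy (lt_Z y)
  have h2 := cardR_le hxy hy1
  have h3 : ((Finset.Ico x y).filter (· ∈ D ∪ R)).card ≤
      ((Finset.Ico x y).filter (· ∈ D)).card + ((Finset.Ico x y).filter (· ∈ R)).card := by
    refine le_trans (Finset.card_le_card ?_) (Finset.card_union_le _ _)
    intro t ht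
    rw [Finset.mem_filter] at ht
    rw [Finset.mem_union, Finset.mem_filter, Finset.mem_filter]
    rcases ht.2 with h | h
    · exact Or.inl ⟨ht.1, h⟩
    · exact Or.inr ⟨ht.1, h⟩
  have h3' : (((Finset.Ico x y).filter (· ∈ D ∪ R)).card : ℝ) ≤
      ((Finset.Ico x y).filter (· ∈ D)).card + ((Finset.Ico x y).filter (· ∈ R)).card := by
    exact_mod_cast h3
  -- the error term
  set L := Nat.log 4 y with hL
  have hNL : N ≤ L := by
    rw [hL]
    exact Nat.le_log_of_pow_le (by norm_num) (hx.trans hxy)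
  obtain ⟨h4, h5⟩ := hN L hNL
  have h6 : (4 : ℝ) ^ L ≤ y := by
    have := Nat.pow_log_le_self 4 (x := y) (by omega)
    exact_mod_cast this
  have h7 : (2 : ℝ) ^ L ≤ √y := by
    refine Real.le_sqrt_of_sq_le ?_
    rw [four_pow] at h6
    nlinarith
  have hp : (0 : ℝ) < 2 ^ L := by positivity
  rw [pow_one, div_lt_iff₀ hp] at h4
  have h8 : (1 : ℝ) ≤ L := by exact_mod_cast h5
  have h9 : 8 * ((L : ℝ) + 2) + 11 ≤ ε * √y := by
    have : ε * 2 ^ L ≤ ε * √y := mul_le_mul_of_nonneg_left h7 hε.le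
    linarith
  have e1 : √(10 * (y : ℝ)) = √10 * √y := Real.sqrt_mul (by norm_num) _
  have e2 : √(10 * (x : ℝ)) = √10 * √x := Real.sqrt_mul (by norm_num) _
  rw [rt_two, rt_two]
  unfold Rh at h2
  rw [e1, e2] at h2
  push_cast at h1
  have hfin : (((Finset.Ico x y).filter (· ∈ D ∪ R)).card : ℝ) ≤
    √10 * (√y - √x) + ε * √y := by linarith
  convert hfin

/-- The sequence. -/
theorem exists_seq : ∃ a : ℕ → ℕ, StrictMono a ∧
    (∀ n : ℕ, ∃ i j : ℕ, a i + a j = n) ∧
    Tendsto (fun n : ℕ => (a n : ℝ) / (1 / 10 * ((n : ℝ) + 1) ^ 2)) atTop (𝓝 1) := by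
  obtain ⟨a, h1, h2, h3⟩ := Helper47.Spec.regularize le_rfl
    (show (0 : ℝ) < √10 by positivity) locDens
  refine ⟨a, h1, fun n => ?_, ?_⟩
  · obtain ⟨u, hu, v, hv, huv⟩ := cover n
    obtain ⟨i, hi⟩ := h2 (Or.inr hu)
    obtain ⟨j, hj⟩ := h2 (Or.inl hv)
    exact ⟨i, j, by rw [hi, hj, huv]⟩
  · have e : (√10 ^ 2 : ℝ)⁻¹ = 1 / 10 := by
      rw [Real.sq_sqrt (by norm_num)]; norm_num
    rw [e] at h3
    exact h3

end Pool.Agent.Helper58.Thin
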