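import Mathlib

/-!
# The two counting functions of the construction (order two)

`Dh x` is the (approximate) number of elements below `x` of the union of progressions,
`Rh x = √(10 x) - Dh x` the number of elements of the set of residues.
-/

namespace Pool.Agent.Helper58.Thin

/-- The line of level `k`. -/
noncomputable def ln (k : ℕ) (x : ℝ) : ℝ := x / 2 ^ k + 3 / 5 * 2 ^ k

/-- The lower envelope of the lines. -/
noncomputable def Dh (x : ℝ) : ℝ := ⨅ k : ℕ, ln k x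

/-- The complement. -/
noncomputable def Rh (x : ℝ) : ℝ := √(10 * x) - Dh x

lemma ln_nonneg {x : ℝ} (hx : 0 ≤ x) (k : ℕ) : 0 ≤ ln k x := by unfold ln; positivity

lemma Dh_le {x : ℝ} (hx : 0 ≤ x) (k : ℕ) : Dh x ≤ ln k x :=
  ciInf_le ⟨0, by rintro _ ⟨k, rfl⟩; exact ln_nonneg hx k⟩ k

lemma le_Dh {x v : ℝ} (h : ∀ k, v ≤ ln k x) : v ≤ Dh x := le_ciInf h

lemma Dh_nonneg {x : ℝ} (hx : 0 ≤ x) : 0 ≤ Dh x := le_Dh fun k => ln_nonneg hx k

lemma Dh_mono {x y : ℝ} (hx : 0 ≤ x) (hxy : x ≤ y) : Dh x ≤ Dh y := by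
  refine le_Dh fun k => (Dh_le hx k).trans ?_
  unfold ln
  gcongr

/-- Arithmetic-geometric mean. -/
lemma Dh_lower {x : ℝ} (hx : 0 ≤ x) : 489 / 1000 * √(10 * x) ≤ Dh x := by
  refine le_Dh fun k => ?_
  unfold ln
  set u := √(10 * x) with hu
  have hu2 : u ^ 2 = 10 * x := Real.sq_sqrt (by positivity)
  have hp : (0 : ℝ) < 2 ^ k := by positivity
  set p : ℝ := 2 ^ k with hpdef
  have hx' : x = u ^ 2 / 10 := by linarith
  rw [hx']
  have h1 : 489 / 1000 * u * p ≤ u ^ 2 / 10 + 3 / 5 * p * p := by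
    nlinarith [sq_nonneg (u - 489 / 200 * p), sq_nonneg p]
  have h2 : u ^ 2 / 10 / p + 3 / 5 * p = (u ^ 2 / 10 + 3 / 5 * p * p) / p := by
    field_simp
  rw [h2, le_div_iff₀ hp]
  exact h1

/-- Comparison of the powers of two. -/
lemma pow_cases (j k : ℕ) : j = k ∨ (2 : ℝ) * 2 ^ k ≤ 2 ^ j ∨ (2 : ℝ) * 2 ^ j ≤ 2 ^ k := by
  rcases lt_trichotomy j k with h | h | h
  · right; right
    calc (2 : ℝ) * 2 ^ j = 2 ^ (j + 1) := by rw [pow_succ]; ring
      _ ≤ 2 ^ k := pow_le_pow_right₀ (by norm_num) h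
  · exact Or.inl h
  · right; left
    calc (2 : ℝ) * 2 ^ k = 2 ^ (k + 1) := by rw [pow_succ]; ring
      _ ≤ 2 ^ j := pow_le_pow_right₀ (by norm_num) h

lemma four_pow (k : ℕ) : (4 : ℝ) ^ k = 2 ^ k * 2 ^ k := by
  rw [← mul_pow]; norm_num

/-- On the range of level `k` the envelope is almost the line of level `k`. -/
lemma Dh_ge {k : ℕ} {y C : ℝ} (h1 : 3 / 10 * 4 ^ k ≤ y)
    (h2 : y ≤ 6 / 5 * 4 ^ k + C * 2 ^ k) (hC : 0 ≤ C) : ln k y - C ≤ Dh y := by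
  refine le_Dh fun j => ?_
  rw [four_pow] at h1 h2
  rcases pow_cases j k with h | h | h
  · rw [h]; linarith
  · unfold ln
    have hp : (0 : ℝ) < 2 ^ k := by positivity
    have hq : (0 : ℝ) < 2 ^ j := by positivity
    set p : ℝ := 2 ^ k
    set q : ℝ := 2 ^ j
    have e : y / q + 3 / 5 * q - (y / p + 3 / 5 * p - C) =
        ((q - p) * (3 / 5 * (p * q) - y) + C * (p * q)) / (p * q) := by
      field_simp; ring
    have : 0 ≤ (q - p) * (3 / 5 * (p * q) - y) + C * (p * q) := by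
      have h3 : 3 / 5 * (p * q) - y ≥ -(C * p) := by nlinarith
      nlinarith [mul_nonneg (sub_nonneg.2 (by linarith : p ≤ q)) (mul_nonneg hC hp.le),
        mul_nonneg hC (mul_nonneg hp.le hp.le),
        mul_le_mul_of_nonneg_left h3 (sub_nonneg.2 (by linarith : p ≤ q))]
    have h4 : 0 ≤ ((q - p) * (3 / 5 * (p * q) - y) + C * (p * q)) / (p * q) := by positivity
    linarith
  · unfold ln
    have hp : (0 : ℝ) < 2 ^ k := by positivity
    have hq : (0 : ℝ) < 2 ^ j := by positivity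
    set p : ℝ := 2 ^ k
    set q : ℝ := 2 ^ j
    have e : y / q + 3 / 5 * q - (y / p + 3 / 5 * p - C) =
        ((p - q) * (y - 3 / 5 * (p * q)) + C * (p * q)) / (p * q) := by
      field_simp; ring
    have : 0 ≤ (p - q) * (y - 3 / 5 * (p * q)) + C * (p * q) := by
      have h3 : 0 ≤ y - 3 / 5 * (p * q) := by nlinarith
      have h5 : 0 ≤ p - q := by linarith
      positivity
    have h4 : 0 ≤ ((p - q) * (y - 3 / 5 * (p * q)) + C * (p * q)) / (p * q) := by positivity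
    linarith

/-- For `√(10 y) ≥ 5 M` some line is low at `y`. -/
lemma exists_low {y M : ℝ} (hM : 0 < M) (hM1 : 1 ≤ M) (hy : 5 * M ≤ √(10 * y)) :
    ∃ k : ℕ, ln k y ≤ 62 / 100 * √(10 * y) := by
  set b := √(10 * y) with hb
  have hy0 : 0 ≤ 10 * y := by
    by_contra h
    rw [Real.sqrt_eq_zero_of_nonpos (by linarith)] at hb
    linarith
  have hb2 : b ^ 2 = 10 * y := Real.sq_sqrt hy0
  obtain ⟨n, hn1, hn2⟩ := exists_nat_pow_near (x := b / 5) (y := 2) (by linarith) (by norm_num)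
  refine ⟨n + 1, ?_⟩
  unfold ln
  have hq : (0 : ℝ) < 2 ^ (n + 1) := by positivity
  have h3 : (2 : ℝ) ^ (n + 1) ≤ 2 * (b / 5) := by rw [pow_succ]; linarith
  set q : ℝ := 2 ^ (n + 1)
  have hy' : y = b ^ 2 / 10 := by linarith
  rw [hy']
  have h4 : b ^ 2 / 10 / q + 3 / 5 * q = (b ^ 2 / 10 + 3 / 5 * q * q) / q := by field_simp
  rw [h4, div_le_iff₀ hq]
  -- b/5 < q ≤ 2b/5
  nlinarith [mul_nonneg (sub_nonneg.2 hn2.le) (sub_nonneg.2 h3)]

lemma Rh_mono {x y : ℝ} (hx : 0 ≤ x) (hxy : x ≤ y) : Rh x ≤ Rh y := by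
  have hy : 0 ≤ y := hx.trans hxy
  have hab : √(10 * x) ≤ √(10 * y) := Real.sqrt_le_sqrt (by linarith)
  unfold Rh
  suffices h : Dh y - (√(10 * y) - √(10 * x)) ≤ Dh x by linarith
  refine le_Dh fun j => ?_
  set a := √(10 * x) with ha
  set b := √(10 * y) with hb
  have ha0 : 0 ≤ a := Real.sqrt_nonneg _
  have ha2 : a ^ 2 = 10 * x := Real.sq_sqrt (by positivity)
  have hb2 : b ^ 2 = 10 * y := Real.sq_sqrt (by positivity)
  have hp : (0 : ℝ) < 2 ^ j := by positivity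
  rcases le_total (a + b) (10 * 2 ^ j) with h | h
  · have h1 := Dh_le hy j
    unfold ln at h1 ⊢
    set p : ℝ := 2 ^ j
    have h2 : (y - x) / p ≤ b - a := by
      rw [div_le_iff₀ hp]
      nlinarith
    have h3 : y / p - x / p = (y - x) / p := by ring
    linarith
  · have hb5 : 5 * 2 ^ j ≤ b := by linarith
    obtain ⟨k, hk⟩ := exists_low (M := 2 ^ j) hp (one_le_pow₀ (by norm_num)) hb5
    have h1 := Dh_le hy k
    have h2 : a - ln j x ≤ 19 / 10 * 2 ^ j := by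
      unfold ln
      set p : ℝ := 2 ^ j
      have hx' : x = a ^ 2 / 10 := by linarith
      rw [hx']
      have : a ^ 2 / 10 / p ≥ a - 5 / 2 * p := by
        rw [ge_iff_le, le_div_iff₀ hp]
        nlinarith [sq_nonneg (a - 5 * p)]
      linarith
    linarith

lemma Rh_slope {x y : ℝ} (hx : 0 ≤ x) (hxy : x ≤ y) :
    Rh y - Rh x ≤ √(10 * y) - √(10 * x) := by
  have := Dh_mono hx hxy
  unfold Rh
  linarith

/-- `Rh` is unbounded. -/
lemma Rh_ge {y : ℝ} (hy : 5 ≤ √(10 * y)) : 38 / 100 * √(10 * y) ≤ Rh y := by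
  have hy0 : 0 ≤ y := by
    by_contra h
    rw [Real.sqrt_eq_zero_of_nonpos (by linarith)] at hy
    linarith
  obtain ⟨k, hk⟩ := exists_low (M := 1) one_pos le_rfl (by linarith)
  have := Dh_le hy0 k
  unfold Rh
  linarith

lemma Rh_le_pow {k : ℕ} {x : ℝ} (hx : 0 ≤ x) (h : x ≤ 2 / 5 * 4 ^ k) : Rh x ≤ 2 ^ k := by
  refine (Rh_mono hx h).trans ?_
  have h1 := Dh_ge (k := k) (y := 2 / 5 * 4 ^ k) (C := 0)
    (by have : (0 : ℝ) < 4 ^ k := by positivity
        linarith)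
    (by have : (0 : ℝ) < 4 ^ k := by positivity
        linarith) le_rfl
  have h2 : √(10 * (2 / 5 * 4 ^ k)) = 2 * 2 ^ k := by
    rw [show (10 : ℝ) * (2 / 5 * 4 ^ k) = (2 * 2 ^ k) ^ 2 by rw [four_pow]; ring]
    exact Real.sqrt_sq (by positivity)
  unfold Rh
  rw [h2]
  have h3 : ln k (2 / 5 * 4 ^ k) = 2 ^ k := by
    unfold ln
    rw [four_pow]
    have hp : (0 : ℝ) < 2 ^ k := by positivity
    field_simp
    ring
  linarith

lemma pow_le_Rh (k : ℕ) : (2 : ℝ) ^ k ≤ Rh (6 / 5 * 4 ^ k) := by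
  have h1 := Rh_mono (x := 2 / 5 * 4 ^ k) (y := 6 / 5 * 4 ^ k) (by positivity)
    (by have : (0 : ℝ) < 4 ^ k := by positivity
        linarith)
  have h2 : √(10 * (2 / 5 * 4 ^ k)) = 2 * 2 ^ k := by
    rw [show (10 : ℝ) * (2 / 5 * 4 ^ k) = (2 * 2 ^ k) ^ 2 by rw [four_pow]; ring]
    exact Real.sqrt_sq (by positivity)
  have h3 : ln k (2 / 5 * 4 ^ k) = 2 ^ k := by
    unfold ln
    rw [four_pow]
    have hp : (0 : ℝ) < 2 ^ k := by positivity
    field_simp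
    ring
  have h4 := Dh_le (x := 2 / 5 * 4 ^ k) (by positivity) k
  have h5 : Rh (2 / 5 * 4 ^ k) = 2 * 2 ^ k - Dh (2 / 5 * 4 ^ k) := by
    unfold Rh; rw [h2]
  linarith

lemma pow_succ_le_Rh (k : ℕ) : (2 : ℝ) * 2 ^ k ≤ Rh (8 / 5 * 4 ^ k) := by
  have h2 : √(10 * (8 / 5 * 4 ^ k)) = 4 * 2 ^ k := by
    rw [show (10 : ℝ) * (8 / 5 * 4 ^ k) = (4 * 2 ^ k) ^ 2 by rw [four_pow]; ring]
    exact Real.sqrt_sq (by positivity)
  have h3 : ln (k + 1) (8 / 5 * 4 ^ k) = 2 * 2 ^ k := by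
    unfold ln
    rw [four_pow, pow_succ]
    have hp : (0 : ℝ) < 2 ^ k := by positivity
    field_simp
    ring
  have h4 := Dh_le (x := 8 / 5 * 4 ^ k) (by positivity) (k + 1)
  unfold Rh
  rw [h2]
  linarith

/-- First polynomial inequality. -/
lemma poly_one {a : ℝ} (h0 : 0 ≤ a) (h1 : a ^ 2 ≤ 3) :
    (a ^ 2 / 20 + 511 / 1000 * a + 14 / 5) ^ 2 ≤ a ^ 2 + 12 := by
  have h2 : a ≤ 1733 / 1000 := by nlinarith
  nlinarith [mul_nonneg h0 (sub_nonneg.2 h2), mul_nonneg (mul_nonneg h0 h0) (sub_nonneg.2 h2),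
    mul_nonneg (mul_nonneg h0 h0) (mul_nonneg h0 (sub_nonneg.2 h2))]

/-- Second polynomial inequality. -/
lemma poly_two {a : ℝ} (h0 : 0 ≤ a) (h1 : a ≤ 2) :
    (a - a ^ 2 / 20 + 11 / 5) ^ 2 ≤ a ^ 2 + 12 := by
  have e : a ^ 2 + 12 - (a - a ^ 2 / 20 + 11 / 5) ^ 2 =
      (2 - a) * (179 / 50 - 41 / 100 * a - 19 / 200 * a ^ 2 + a ^ 3 / 400) := by ring
  have h2 : 0 ≤ 179 / 50 - 41 / 100 * a - 19 / 200 * a ^ 2 + a ^ 3 / 400 := by
    have : a ^ 2 ≤ 4 := by nlinarith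
    have : 0 ≤ a ^ 3 := by positivity
    nlinarith
  have := mul_nonneg (sub_nonneg.2 h1) h2
  linarith

/-- The key inequality, first half. -/
lemma key_small {k : ℕ} {x : ℝ} (hx : 0 ≤ x) (h : x ≤ 2 / 5 * 4 ^ k) :
    Rh x + 2 ^ k ≤ Rh (x + 6 / 5 * 4 ^ k) := by
  have hp : (0 : ℝ) < 2 ^ k := by positivity
  have h4 := four_pow k
  set p : ℝ := 2 ^ k with hpdef
  set a := √(10 * x) / p with ha
  have ha0 : 0 ≤ a := by positivity
  have hx2 : √(10 * x) ^ 2 = 10 * x := Real.sq_sqrt (by positivity)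
  have hax : √(10 * x) = a * p := by rw [ha]; field_simp
  have hxa : x = a ^ 2 * p ^ 2 / 10 := by rw [hax] at hx2; nlinarith
  have ha2 : a ≤ 2 := by
    have h5 : a ^ 2 * p ^ 2 ≤ 4 * p ^ 2 := by rw [h4] at h; nlinarith
    have h6 : a ^ 2 ≤ 4 := le_of_mul_le_mul_right h5 (by positivity)
    nlinarith
  -- the right hand side
  have hr := Dh_le (x := x + 6 / 5 * 4 ^ k) (by positivity) (k + 1)
  have hln : ln (k + 1) (x + 6 / 5 * 4 ^ k) = p * (a ^ 2 / 20 + 9 / 5) := by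
    unfold ln
    rw [pow_succ, ← hpdef, h4, hxa]
    field_simp
    ring
  have hs : √(10 * (x + 6 / 5 * 4 ^ k)) = p * √(a ^ 2 + 12) := by
    rw [h4, hxa, show 10 * (a ^ 2 * p ^ 2 / 10 + 6 / 5 * (p * p)) = p ^ 2 * (a ^ 2 + 12) by ring,
      Real.sqrt_mul (by positivity), Real.sqrt_sq hp.le]
  have hR : Rh (x + 6 / 5 * 4 ^ k) ≥ p * √(a ^ 2 + 12) - p * (a ^ 2 / 20 + 9 / 5) := by
    unfold Rh
    rw [hs]
    linarith
  rcases le_total (a ^ 2) 3 with h3 | h3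
  · have hD := Dh_lower hx
    have hl : Rh x ≤ 511 / 1000 * (a * p) := by
      unfold Rh
      rw [hax] at hD ⊢
      linarith
    have hq : a ^ 2 / 20 + 511 / 1000 * a + 14 / 5 ≤ √(a ^ 2 + 12) :=
      Real.le_sqrt_of_sq_le (poly_one ha0 h3)
    have := mul_le_mul_of_nonneg_left hq hp.le
    nlinarith
  · have hD := Dh_ge (k := k) (y := x) (C := 0)
      (by rw [h4, hxa]; nlinarith [mul_nonneg (sub_nonneg.2 h3) (sq_nonneg p)])
      (by have : (0 : ℝ) < 4 ^ k := by positivity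
          linarith) le_rfl
    have hl : ln k x = p * (a ^ 2 / 10 + 3 / 5) := by
      unfold ln
      rw [← hpdef, hxa]
      field_simp
    have hq : a - a ^ 2 / 20 + 11 / 5 ≤ √(a ^ 2 + 12) :=
      Real.le_sqrt_of_sq_le (poly_two ha0 ha2)
    have h7 := mul_le_mul_of_nonneg_left hq hp.le
    have h8 : Rh x ≤ a * p - p * (a ^ 2 / 10 + 3 / 5) := by
      unfold Rh
      rw [hax]
      linarith
    nlinarith

/-- The key inequality. -/
lemma key {k : ℕ} {x v : ℝ} (hx : 0 ≤ x) (hv : v ≤ Rh x) (hv' : v ≤ 2 ^ k) :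
    v + 2 ^ k ≤ Rh (x + 6 / 5 * 4 ^ k) := by
  rcases le_total x (2 / 5 * 4 ^ k) with h | h
  · linarith [key_small hx h]
  · have h1 := pow_succ_le_Rh k
    have h2 := Rh_mono (x := 8 / 5 * 4 ^ k) (y := x + 6 / 5 * 4 ^ k) (by positivity)
      (by linarith)
    linarith

end Pool.Agent.Helper58.Thin
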