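import Pool.Agent.Helper58.Thin.Fn

/-!
# The set of residues, and the covering
-/

namespace Pool.Agent.Helper58.Thin

/-- The candidates for the element of index `j`. -/
def cand (b k j : ℕ) : Set ℕ := {m | m ≡ b + 2 ^ k [MOD 2 ^ (k + 1)] ∧ (j : ℝ) ≤ Rh m}

/-- The sequence of residues. -/
noncomputable def r : ℕ → ℕ
  | 0 => 0
  | (j + 1) => sInf (cand (r (j + 1 - 2 ^ Nat.log 2 (j + 1))) (Nat.log 2 (j + 1)) (j + 1))
termination_by j => j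
decreasing_by
  have : 0 < 2 ^ Nat.log 2 (j + 1) := by positivity
  omega

lemma r_zero : r 0 = 0 := by rw [r]

lemma r_eq {k i : ℕ} (hi : i < 2 ^ k) : r (i + 2 ^ k) = sInf (cand (r i) k (i + 2 ^ k)) := by
  have hpos : 0 < 2 ^ k := by positivity
  have hlog : Nat.log 2 (i + 2 ^ k) = k := by
    apply Nat.log_eq_of_pow_le_of_lt_pow
    · omega
    · rw [pow_succ]; omega
  obtain ⟨j, hj⟩ : ∃ j, i + 2 ^ k = j + 1 := ⟨i + 2 ^ k - 1, by omega⟩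
  rw [hj, r, ← hj, hlog, Nat.add_sub_cancel]

lemma cand_nonempty (b k j : ℕ) : (cand b k j).Nonempty := by
  obtain ⟨N, hN⟩ := exists_nat_ge ((j : ℝ) ^ 2 + 100)
  refine ⟨b + 2 ^ k + 2 ^ (k + 1) * N, ?_, ?_⟩
  · simp [Nat.ModEq]
  · have h1 : (N : ℝ) ≤ ((b + 2 ^ k + 2 ^ (k + 1) * N : ℕ) : ℝ) := by
      have h0 : 1 * N ≤ 2 ^ (k + 1) * N := Nat.mul_le_mul_right _ Nat.one_le_two_pow
      rw [one_mul] at h0
      have h00 : N ≤ b + 2 ^ k + 2 ^ (k + 1) * N := h0.trans (Nat.le_add_left _ _)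
      exact_mod_cast h00
    refine le_trans ?_ (Rh_mono (x := (j : ℝ) ^ 2 + 100) (by positivity) (hN.trans h1))
    have h2 : 3 * (j : ℝ) ≤ √(10 * ((j : ℝ) ^ 2 + 100)) :=
      Real.le_sqrt_of_sq_le (by nlinarith [sq_nonneg (j : ℝ)])
    have h3 : (5 : ℝ) ≤ √(10 * ((j : ℝ) ^ 2 + 100)) :=
      Real.le_sqrt_of_sq_le (by nlinarith [sq_nonneg (j : ℝ)])
    have h4 := Rh_ge h3
    have h5 : (0 : ℝ) ≤ j := by positivity
    linarith

lemma r_mem {k i : ℕ} (hi : i < 2 ^ k) : r (i + 2 ^ k) ∈ cand (r i) k (i + 2 ^ k) := by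
  rw [r_eq hi]
  exact Nat.sInf_mem (cand_nonempty _ _ _)

lemma r_mod {k i : ℕ} (hi : i < 2 ^ k) : r (i + 2 ^ k) ≡ r i + 2 ^ k [MOD 2 ^ (k + 1)] :=
  (r_mem hi).1

/-- Every positive index is `i + 2 ^ k` with `i < 2 ^ k`. -/
lemma exists_index {j : ℕ} (hj : j ≠ 0) : ∃ k i, i < 2 ^ k ∧ j = i + 2 ^ k := by
  have h1 := Nat.pow_log_le_self 2 hj
  have h2 := Nat.lt_pow_succ_log_self (b := 2) (by norm_num) j
  rw [pow_succ] at h2
  exact ⟨Nat.log 2 j, j - 2 ^ Nat.log 2 j, by omega, by omega⟩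

lemma le_Rh_r {j : ℕ} (hj : j ≠ 0) : (j : ℝ) ≤ Rh (r j) := by
  obtain ⟨k, i, hi, rfl⟩ := exists_index hj
  exact (r_mem hi).2

/-- The end of the multiples of `2 ^ k`. -/
def Z (k : ℕ) : ℕ := 6 * 4 ^ k / 5 + 2 ^ (k + 1) + 1

lemma Z_lower (k : ℕ) : (6 / 5 * 4 ^ k + 2 ^ (k + 1) : ℝ) < Z k := by
  have h : 6 * 4 ^ k < 5 * (6 * 4 ^ k / 5 + 1) := by omega
  have h' : (6 * 4 ^ k : ℝ) < 5 * ((6 * 4 ^ k / 5 : ℕ) + 1) := by exact_mod_cast h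
  unfold Z
  push_cast
  linarith

lemma Z_upper (k : ℕ) : (Z k : ℝ) ≤ 6 / 5 * 4 ^ k + 3 * 2 ^ k := by
  have h : 5 * (6 * 4 ^ k / 5) ≤ 6 * 4 ^ k := Nat.mul_div_le _ _
  have h' : (5 * ((6 * 4 ^ k / 5 : ℕ)) : ℝ) ≤ 6 * 4 ^ k := by exact_mod_cast h
  have h1 : (1 : ℝ) ≤ 2 ^ k := one_le_pow₀ (by norm_num)
  unfold Z
  push_cast
  rw [pow_succ]
  linarith

lemma Z_mono : Monotone Z := by
  intro a b hab
  unfold Z
  have h1 : 4 ^ a ≤ 4 ^ b := Nat.pow_le_pow_right (by norm_num) hab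
  have h2 : 2 ^ (a + 1) ≤ 2 ^ (b + 1) := Nat.pow_le_pow_right (by norm_num) (by omega)
  have h3 : 6 * 4 ^ a / 5 ≤ 6 * 4 ^ b / 5 := Nat.div_le_div_right (Nat.mul_le_mul_left _ h1)
  omega

/-- The next element of the class comes in time. -/
lemma r_fifo {k i : ℕ} (hi : i < 2 ^ k) : r (i + 2 ^ k) < r i + Z k := by
  -- the candidate
  have hp : (0 : ℝ) < 2 ^ (k + 1) := by positivity
  have hpk : (1 : ℝ) ≤ 2 ^ k := one_le_pow₀ (by norm_num)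
  have h4 := four_pow k
  have hY : (0 : ℝ) ≤ 6 / 5 * 4 ^ k - 2 ^ k := by nlinarith
  set t := ⌈(6 / 5 * 4 ^ k - 2 ^ k : ℝ) / 2 ^ (k + 1)⌉₊ with ht
  have ht1 : (6 / 5 * 4 ^ k - 2 ^ k : ℝ) ≤ 2 ^ (k + 1) * t := by
    have := Nat.le_ceil ((6 / 5 * 4 ^ k - 2 ^ k : ℝ) / 2 ^ (k + 1))
    rw [div_le_iff₀ hp] at this
    linarith
  have ht2 : (2 ^ (k + 1) * t : ℝ) < 6 / 5 * 4 ^ k - 2 ^ k + 2 ^ (k + 1) := by
    have := Nat.ceil_lt_add_one (div_nonneg hY hp.le)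
    rw [← ht] at this
    calc (2 ^ (k + 1) * t : ℝ) < 2 ^ (k + 1) * ((6 / 5 * 4 ^ k - 2 ^ k : ℝ) / 2 ^ (k + 1) + 1) :=
          mul_lt_mul_of_pos_left this hp
      _ = _ := by field_simp
  have hm : r i + 2 ^ k + 2 ^ (k + 1) * t ∈ cand (r i) k (i + 2 ^ k) := by
    refine ⟨by simp [Nat.ModEq], ?_⟩
    push_cast
    have h1 : Rh ((r i : ℝ) + 6 / 5 * 4 ^ k) ≤ Rh ((r i : ℝ) + 2 ^ k + 2 ^ (k + 1) * t) :=
      Rh_mono (by positivity) (by linarith)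
    refine le_trans ?_ h1
    rcases eq_or_ne i 0 with h0 | h0
    · rw [h0, r_zero]
      simpa using pow_le_Rh k
    · refine key (by positivity) (le_Rh_r h0) ?_
      exact_mod_cast hi.le
  have h1 : r (i + 2 ^ k) ≤ r i + 2 ^ k + 2 ^ (k + 1) * t := by
    rw [r_eq hi]
    exact Nat.sInf_le hm
  have h2 := Z_lower k
  have h3 : ((r i + 2 ^ k + 2 ^ (k + 1) * t : ℕ) : ℝ) < ((r i + Z k : ℕ) : ℝ) := by
    push_cast
    linarith
  exact lt_of_le_of_lt h1 (by exact_mod_cast h3)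

/-- The union of the progressions. -/
def D : Set ℕ := {t | ∃ k, 2 ^ k ∣ t ∧ t < Z k}

/-- The set of residues. -/
def R : Set ℕ := Set.range r

lemma zero_mem_D : 0 ∈ D := ⟨0, by simp, by simp [Z]⟩

/-- Every integer is a sum of an element of `R` and an element of `D`. -/
theorem cover (n : ℕ) : ∃ a ∈ R, ∃ b ∈ D, a + b = n := by
  by_cases hall : ∀ k, ∃ i < 2 ^ k, r i ≤ n ∧ r i ≡ n [MOD 2 ^ k]
  · obtain ⟨i, -, h1, h2⟩ := hall n
    have h3 : n < 2 ^ n := Nat.lt_two_pow_self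
    have h4 : r i = n := Nat.ModEq.eq_of_lt_of_lt h2 (by omega) h3
    exact ⟨r i, ⟨i, rfl⟩, 0, zero_mem_D, by omega⟩
  · push Not at hall
    classical
    have hex : ∃ k, ¬ ∃ i < 2 ^ k, r i ≤ n ∧ r i ≡ n [MOD 2 ^ k] := by
      obtain ⟨k, hk⟩ := hall
      exact ⟨k, by push Not; exact hk⟩
    set K := Nat.find hex with hK
    have hK1 : ¬ ∃ i < 2 ^ K, r i ≤ n ∧ r i ≡ n [MOD 2 ^ K] := Nat.find_spec hex
    have hK0 : K ≠ 0 := by
      intro h0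
      rw [h0] at hK1
      exact hK1 ⟨0, by simp, by simp [r_zero], by simp [Nat.modEq_one]⟩
    obtain ⟨k, hk⟩ : ∃ k, K = k + 1 := ⟨K - 1, by omega⟩
    have hk2 : ∃ i < 2 ^ k, r i ≤ n ∧ r i ≡ n [MOD 2 ^ k] := by
      by_contra h
      have := Nat.find_min' hex h
      omega
    obtain ⟨i, hi, hin, him⟩ := hk2
    rw [hk] at hK1
    have hpow : 2 ^ (k + 1) = 2 ^ k + 2 ^ k := by rw [pow_succ]; ring
    -- n - r i is a multiple of 2 ^ k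
    have hdvd : 2 ^ k ∣ n - r i := (Nat.modEq_iff_dvd' hin).1 him
    obtain ⟨q, hq⟩ := hdvd
    have hne : ¬ r i ≡ n [MOD 2 ^ (k + 1)] := fun h => hK1 ⟨i, by omega, hin, h⟩
    have hodd : q % 2 = 1 := by
      by_contra h
      have h2 : q % 2 = 0 := by omega
      apply hne
      rw [Nat.modEq_iff_dvd' hin, hq, pow_succ]
      exact Nat.mul_dvd_mul_left _ (Nat.dvd_of_mod_eq_zero h2)
    have hmod : r (i + 2 ^ k) ≡ n [MOD 2 ^ (k + 1)] := by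
      refine (r_mod hi).trans ?_
      have h3 : n = r i + 2 ^ k + 2 ^ (k + 1) * (q / 2) := by
        have h4 : q = 2 * (q / 2) + 1 := by omega
        have h5 : n = r i + 2 ^ k * q := by omega
        rw [h5]
        conv_lhs => rw [h4]
        rw [pow_succ]
        ring
      rw [h3]
      simp [Nat.ModEq]
    have hlt : n < r (i + 2 ^ k) := by
      by_contra h
      exact hK1 ⟨i + 2 ^ k, by omega, by omega, hmod⟩
    have hf := r_fifo hi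
    exact ⟨r i, ⟨i, rfl⟩, n - r i, ⟨k, ⟨q, hq⟩, by omega⟩, by omega⟩

end Pool.Agent.Helper58.Thin
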